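import Mathlib
import Pool.Agent.V11158.HouseMag

open Polynomial Pool.Agent.V11158.HouseMag

open Pool.Agent.V11158.Wheel (lpol)

namespace Pool.Agent.Results.MP_04f01b_co.HouseMagnitude

/-- A sign vector `σ` is a chamber of the arrangement with normals `α 0, …, α (n-1)` if some point
`x` lies strictly on the sides of all hyperplanes prescribed by `σ` (`true` is the positive
side). -/
def IsChamber {d n : ℕ} (α : Fin n → Fin d → ℝ) (σ : Fin n → Bool) : Prop :=
  ∃ x : Fin d → ℝ, ∀ i, (σ i = true → 0 < α i ⬝ᵥ x) ∧ (σ i = false → α i ⬝ᵥ x < 0)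

/-- The chambers of the arrangement with normals `α`, each encoded by its sign vector. -/
abbrev Chamber {d n : ℕ} (α : Fin n → Fin d → ℝ) : Type := {σ : Fin n → Bool // IsChamber α σ}

noncomputable instance {d n : ℕ} (α : Fin n → Fin d → ℝ) : Fintype (Chamber α) :=
  Fintype.ofFinite _

/-- The tope graph: chambers separated by exactly one hyperplane are adjacent. -/
def topeGraph {d n : ℕ} (α : Fin n → Fin d → ℝ) : SimpleGraph (Chamber α) where
  Adj C D := hammingDist C.1 D.1 = 1
  symm := ⟨fun C D h => by rw [hammingDist_comm]; exact h⟩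
  loopless := ⟨fun C h => by rw [hammingDist_self] at h; exact absurd h (by norm_num)⟩

/-- A graph is vertex-transitive if its automorphism group acts transitively on its vertices. -/
def VertexTransitive {V : Type} (G : SimpleGraph V) : Prop :=
  ∀ u v : V, ∃ φ : G ≃g G, φ u = v

/-- The `q`-Varchenko matrix, over `ℚ(q)`. -/
noncomputable def varchenko {d n : ℕ} (α : Fin n → Fin d → ℝ) :
    Matrix (Chamber α) (Chamber α) (RatFunc ℚ) :=
  Matrix.of fun C D => RatFunc.X ^ hammingDist C.1 D.1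

open Classical in
/-- The magnitude. -/
noncomputable def mag {d n : ℕ} (α : Fin n → Fin d → ℝ) : RatFunc ℚ :=
  ∑ C, ∑ D, (varchenko α)⁻¹ C D

/-- The hyperplanes orthogonal to the `α i` are distinct hyperplanes. -/
def IsArrangement {d n : ℕ} (α : Fin n → Fin d → ℝ) : Prop :=
  (∀ i, α i ≠ 0) ∧ ∀ i j, i ≠ j → LinearIndependent ℝ ![α i, α j]

/-- The rank of the arrangement: the dimension of the span of the normals. -/
noncomputable def arrRank {d n : ℕ} (α : Fin n → Fin d → ℝ) : ℕ :=
  Module.finrank ℝ (Submodule.span ℝ (Set.range α))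

/-- The arrangement is not a direct sum of two nonempty arrangements: its normals cannot be split
into two nonempty families whose spans meet only in `0`. -/
def Indecomposable {d n : ℕ} (α : Fin n → Fin d → ℝ) : Prop :=
  ∀ S : Set (Fin n), S.Nonempty → Sᶜ.Nonempty →
    ¬ Disjoint (Submodule.span ℝ (α '' S)) (Submodule.span ℝ (α '' Sᶜ))

section general

variable {d n : ℕ} (α : Fin n → Fin d → ℝ)

open Classical in
lemma varchenko_det : (varchenko α).det ≠ 0 := by
  set V' : Matrix (Chamber α) (Chamber α) ℚ[X] :=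
    Matrix.of fun (C D : Chamber α) => X ^ hammingDist C.1 D.1 with hV'
  have h1 : varchenko α = (algebraMap ℚ[X] (RatFunc ℚ)).mapMatrix V' := by
    ext C D
    simp [varchenko, hV', RatFunc.algebraMap_X]
  have h2 : (evalRingHom (0 : ℚ)).mapMatrix V' = 1 := by
    ext C D
    by_cases h : C = D
    · subst h
      simp [hV']
    · have : hammingDist C.1 D.1 ≠ 0 := by
        rw [Ne, hammingDist_eq_zero]
        exact fun h' => h (Subtype.ext h')
      simp [hV', Matrix.one_apply_ne h, this]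
  have h3 : V'.det ≠ 0 := by
    intro h
    have := congrArg (evalRingHom (0 : ℚ)) h
    rw [RingHom.map_det, h2, Matrix.det_one, map_zero] at this
    exact one_ne_zero this
  rw [h1, ← RingHom.map_det]
  exact fun h => h3 ((map_eq_zero_iff _ (RatFunc.algebraMap_injective ℚ)).mp h)

/-- The magnitude from a weighting. -/
lemma mag_eq (w : Chamber α → RatFunc ℚ)
    (h : ∀ C : Chamber α, ∑ D : Chamber α, RatFunc.X ^ hammingDist C.1 D.1 * w D = 1) :
    mag α = ∑ C, w C := by
  classical
  have hu : IsUnit (varchenko α).det := (varchenko_det α).isUnit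
  have h1 : (varchenko α).mulVec w = 1 := by
    funext C
    exact h C
  have h2 : (varchenko α)⁻¹.mulVec 1 = w := by
    rw [← h1, Matrix.mulVec_mulVec, Matrix.nonsing_inv_mul _ hu, Matrix.one_mulVec]
  have h3 : ∀ C, ∑ D, (varchenko α)⁻¹ C D = w C := by
    intro C
    rw [← h2]
    simp [Matrix.mulVec, dotProduct]
  unfold mag
  exact Finset.sum_congr rfl fun C _ => h3 C

end general

/-! ### the arrangement of the house graph -/

/-- integer normals -/
def wz : Fin 6 → Fin 4 → ℤ :=
  ![![1, 0, 0, 0], ![0, 1, 0, 0], ![0, 0, 1, 0], ![1, 1, 1, 0], ![0, 0, 0, 1], ![1, 1, 1, 1]]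

/-- The graphic arrangement of the house graph (a 5-cycle with one chord), in coordinates in which
the hyperplanes are `x_1 = 0`, `x_2 = 0`, `x_3 = 0`, `x_1 + x_2 + x_3 = 0`, `x_4 = 0` and
`x_1 + x_2 + x_3 + x_4 = 0`. -/
def house : Fin 6 → Fin 4 → ℝ := fun i k => (wz i k : ℝ)

/-- values of the linear forms -/
def sv {R : Type} [Ring R] (x : Fin 4 → R) : Fin 6 → R :=
  ![x 0, x 1, x 2, x 0 + x 1 + x 2, x 3, x 0 + x 1 + x 2 + x 3]

lemma house_dot (x : Fin 4 → ℝ) (i : Fin 6) : house i ⬝ᵥ x = sv x i := by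
  fin_cases i <;> simp [house, wz, sv, dotProduct, Fin.sum_univ_four]

/-- sign vector of a code -/
def ofCode (c : ℕ) : Fin 6 → Bool := fun i => c.testBit i

/-- coordinates of the point of a code -/
def ptz (p : ℕ) : Fin 4 → ℤ := fun i => (((p >>> (4 * (i : ℕ))) &&& 15 : ℕ) : ℤ) - 8

lemma tab_point : ∀ e ∈ tab, ∀ i : Fin 6,
    (ofCode e.1 i = true → 0 < sv (ptz e.2.2) i) ∧ (ofCode e.1 i = false → sv (ptz e.2.2) i < 0) := by
  decide +kernel

lemma sv_cast (x : Fin 4 → ℤ) (i : Fin 6) : sv (fun k => (x k : ℝ)) i = ((sv x i : ℤ) : ℝ) := by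
  fin_cases i <;> simp [sv]

lemma isChamber_of_mem {c : ℕ × ℕ} (hc : c ∈ L) : IsChamber house (ofCode c.1) := by
  unfold L at hc
  rw [List.mem_map] at hc
  obtain ⟨e, he, rfl⟩ := hc
  refine ⟨fun k => (ptz e.2.2 k : ℝ), fun i => ?_⟩
  rw [house_dot, sv_cast]
  have := tab_point e he i
  refine ⟨fun h => ?_, fun h => ?_⟩
  · exact_mod_cast this.1 h
  · exact_mod_cast this.2 h

/-- sign condition on the square -/
def cl3 (a b c s : Bool) : Bool := !(a && b && c && !s) && !(!a && !b && !c && s)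

/-- sign condition on the triangle -/
def cl2 (s a t : Bool) : Bool := !(s && a && !t) && !(!s && !a && t)

/-- sign conditions -/
def ok (a b c s d t : Bool) : Bool := cl3 a b c s && cl2 s d t

/-- code of a sign vector -/
def codeOf (b : Fin 6 → Bool) : ℕ :=
  (b 0).toNat + 2 * (b 1).toNat + 4 * (b 2).toNat + 8 * (b 3).toNat + 16 * (b 4).toNat +
  32 * (b 5).toNat

lemma key : ∀ b0 b1 b2 b3 b4 b5 : Bool, ok b0 b1 b2 b3 b4 b5 = true →
    codeOf ![b0, b1, b2, b3, b4, b5] ∈ L.map Prod.fst ∧
    ∀ i, ofCode (codeOf ![b0, b1, b2, b3, b4, b5]) i = ![b0, b1, b2, b3, b4, b5] i := by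
  decide +kernel

lemma vec_eq (σ : Fin 6 → Bool) : σ = ![σ 0, σ 1, σ 2, σ 3, σ 4, σ 5] := by
  funext i
  fin_cases i <;> rfl

lemma exists_code {σ : Fin 6 → Bool} (h : IsChamber house σ) : ∃ c ∈ L, ofCode c.1 = σ := by
  obtain ⟨x, hx⟩ := h
  have hx' : ∀ i, (σ i = true → 0 < sv x i) ∧ (σ i = false → sv x i < 0) := by
    intro i
    have := hx i
    rwa [house_dot] at this
  have h0 := hx' 0
  have h1 := hx' 1
  have h2 := hx' 2
  have h3 := hx' 3
  have h4 := hx' 4
  have h5 := hx' 5
  have hok : ok (σ 0) (σ 1) (σ 2) (σ 3) (σ 4) (σ 5) = true := by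
    unfold ok
    rw [Bool.and_eq_true]
    simp only [sv, Matrix.cons_val_zero, Matrix.cons_val_one, Matrix.cons_val] at h0 h1 h2 h3 h4 h5
    constructor
    · generalize σ 0 = s0 at *
      generalize σ 1 = s1 at *
      generalize σ 2 = s2 at *
      generalize σ 3 = s3 at *
      clear h4 h5 hx hx'
      cases s0 <;> cases s1 <;> cases s2 <;> cases s3 <;> simp [cl3] at * <;> linarith
    · generalize σ 3 = s3 at *
      generalize σ 4 = s4 at *
      generalize σ 5 = s5 at *
      clear h0 h1 h2 hx hx'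
      cases s3 <;> cases s4 <;> cases s5 <;> simp [cl2] at * <;> linarith
  obtain ⟨h1, h2⟩ := key _ _ _ _ _ _ hok
  rw [List.mem_map] at h1
  obtain ⟨c, hc, hc1⟩ := h1
  refine ⟨c, hc, ?_⟩
  rw [vec_eq σ, hc1]
  funext i
  exact h2 i

lemma codes_nodup : (L.map Prod.fst).Nodup := by decide +kernel

lemma codes_lt : ∀ c ∈ L, c.1 < 64 := by decide +kernel

lemma ofCode_inj {c c' : ℕ × ℕ} (hc : c ∈ L) (hc' : c' ∈ L) (h : ofCode c.1 = ofCode c'.1) :
    c = c' := by
  have h1 : c.1 = c'.1 := by
    apply Nat.eq_of_testBit_eq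
    intro i
    by_cases hi : i < 6
    · exact congrFun h ⟨i, hi⟩
    · have h2 : ∀ c ∈ L, c.1.testBit i = false := by
        intro c hc
        apply Nat.testBit_lt_two_pow
        calc c.1 < 2 ^ 6 := codes_lt c hc
          _ ≤ 2 ^ i := Nat.pow_le_pow_right (by norm_num) (by omega)
      rw [h2 c hc, h2 c' hc']
  exact List.inj_on_of_nodup_map codes_nodup hc hc' h1

lemma L_nodup : L.Nodup := codes_nodup.of_map _

/-- the table entry of a chamber -/
noncomputable def pick (C : Chamber house) : ℕ × ℕ := (exists_code C.2).choose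

lemma pick_mem (C : Chamber house) : pick C ∈ L := (exists_code C.2).choose_spec.1

lemma pick_code (C : Chamber house) : ofCode (pick C).1 = C.1 := (exists_code C.2).choose_spec.2

lemma pick_eq (C : Chamber house) {c : ℕ × ℕ} (hc : c ∈ L) (h : ofCode c.1 = C.1) : pick C = c :=
  ofCode_inj (pick_mem C) hc ((pick_code C).trans h.symm)

lemma sum_chambers {M : Type} [AddCommMonoid M] (G : ℕ × ℕ → M) :
    ∑ C : Chamber house, G (pick C) = (L.map G).sum := by
  classical
  rw [← List.sum_toFinset G L_nodup]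
  apply Finset.sum_bij (fun C _ => pick C)
  · intro C _
    exact List.mem_toFinset.mpr (pick_mem C)
  · intro C _ D _ h
    apply Subtype.ext
    rw [← pick_code C, ← pick_code D, h]
  · intro c hc
    rw [List.mem_toFinset] at hc
    exact ⟨⟨ofCode c.1, isChamber_of_mem hc⟩, Finset.mem_univ _, pick_eq _ hc rfl⟩
  · intro C _
    rfl

lemma bit1 (x k : ℕ) : x >>> k &&& 1 = if x.testBit k then 1 else 0 := by
  simp only [Nat.testBit, Nat.and_one_is_mod, Nat.one_and_eq_mod_two]
  rcases Nat.mod_two_eq_zero_or_one (x >>> k) with h | h <;> simp [h]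

lemma pc_eq (a c : ℕ) : hammingDist (ofCode a) (ofCode c) = pc (a ^^^ c) := by
  have h0 : ∀ x : ℕ, x &&& 1 = x >>> 0 &&& 1 := fun x => by simp
  have h1 : ∀ p q : Bool, (if p ≠ q then 1 else 0 : ℕ) = if (p ^^ q) = true then 1 else 0 := by
    decide
  have h2 : ∀ i : Fin 6, (if ofCode a i ≠ ofCode c i then 1 else 0 : ℕ) =
      if (a ^^^ c).testBit i = true then 1 else 0 := by
    intro i
    rw [Nat.testBit_xor]
    exact h1 _ _
  unfold hammingDist pc
  rw [Finset.card_filter, Finset.sum_congr rfl (fun i _ => h2 i), h0]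
  simp only [bit1, Fin.sum_univ_succ, Fin.sum_univ_zero]
  simp only [Fin.val_zero, Fin.val_succ, zero_add, Nat.reduceAdd]
  ring

lemma dist_eq (C D : Chamber house) : hammingDist C.1 D.1 = pc ((pick C).1 ^^^ (pick D).1) := by
  rw [← pc_eq, pick_code, pick_code]

/-! ### the magnitude -/

/-- integer polynomials as rational functions -/
noncomputable def ι : ℤ[X] →+* RatFunc ℚ :=
  (algebraMap ℚ[X] (RatFunc ℚ)).comp (mapRingHom (Int.castRingHom ℚ))

lemma ι_inj : Function.Injective ι := by
  unfold ι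
  rw [RingHom.coe_comp]
  exact (RatFunc.algebraMap_injective ℚ).comp (map_injective _ Int.cast_injective)

lemma ι_X : ι X = RatFunc.X := by simp [ι, RatFunc.algebraMap_X]

lemma den_ne : lpol denl ≠ 0 := by
  intro h
  have := congrArg (fun f => f.coeff 0) h
  simp [lpol, denl] at this

lemma row_sum (a : ℕ) (l : List (ℕ × ℕ)) :
    (l.map (fun c => RatFunc.X ^ pc (a ^^^ c.1) * (ι (lpol (wpoly c.2)) / ι (lpol denl)))).sum =
      ι (rowP a l) / ι (lpol denl) := by
  induction l with
  | nil => simp [rowP]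
  | cons c l ih =>
    rw [List.map_cons, List.sum_cons, ih, rowP, map_add, map_mul, map_pow, ι_X]
    ring

/-- the weights -/
noncomputable def wt (C : Chamber house) : RatFunc ℚ := ι (lpol (wpoly (pick C).2)) / ι (lpol denl)

lemma weighting (C : Chamber house) :
    ∑ D : Chamber house, RatFunc.X ^ hammingDist C.1 D.1 * wt D = 1 := by
  have h1 : ∀ D : Chamber house, RatFunc.X ^ hammingDist C.1 D.1 * wt D =
      (fun c : ℕ × ℕ => RatFunc.X ^ pc ((pick C).1 ^^^ c.1) *
        (ι (lpol (wpoly c.2)) / ι (lpol denl))) (pick D) := by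
    intro D
    rw [dist_eq, wt]
  have h2 := sum_chambers (fun c : ℕ × ℕ => RatFunc.X ^ pc ((pick C).1 ^^^ c.1) *
    (ι (lpol (wpoly c.2)) / ι (lpol denl)))
  refine (Finset.sum_congr rfl (fun D _ => h1 D)).trans (h2.trans ?_)
  rw [row_sum, rowP_eq _ (List.mem_map_of_mem (pick_mem C))]
  exact div_self ((map_ne_zero_iff _ ι_inj).mpr den_ne)

lemma numS_sum (l : List (ℕ × ℕ)) :
    (l.map (fun c => (ι (lpol (wpoly c.2)) / ι (lpol denl)))).sum = ι (numS l) / ι (lpol denl) := by
  induction l with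
  | nil => simp [numS]
  | cons c l ih =>
    rw [List.map_cons, List.sum_cons, ih, numS, map_add]
    ring

lemma mag_house : mag house = ι (lpol suml) / ι (lpol denl) := by
  rw [mag_eq house wt weighting, ← numS_eq, ← numS_sum]
  exact sum_chambers (fun c => (ι (lpol (wpoly c.2)) / ι (lpol denl)))

/-- reduced numerator of the magnitude -/
noncomputable def nu : ℤ[X] := 42 * X ^ 6 + 64 * X ^ 5 + 38 * X ^ 4 + 38 * X ^ 2 + 64 * X + 42

/-- reduced denominator of the magnitude -/
noncomputable def de : ℤ[X] := (X + 1) ^ 4 * (X ^ 2 + X + 1) ^ 2 * (X ^ 4 + 1)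

lemma sum_factor : lpol suml = (X ^ 2 - X + 1) * nu := by
  simp only [lpol, suml, nu, map_ofNat]
  ring

lemma den_factor : lpol denl = (X ^ 2 - X + 1) * de := by
  simp only [lpol, denl, de, map_one, map_ofNat]
  ring

lemma mag_reduced : mag house = ι nu / ι de := by
  have h1 : ι (X ^ 2 - X + 1) ≠ 0 := by
    intro h
    apply den_ne
    apply ι_inj
    rw [den_factor, map_mul, h, zero_mul, map_zero]
  rw [mag_house, sum_factor, den_factor, map_mul, map_mul, mul_div_mul_left _ _ h1]

lemma de_ne : de ≠ 0 := by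
  intro h
  apply den_ne
  rw [den_factor, h, mul_zero]

lemma denom_dvd : (mag house).denom ∣ de.map (Int.castRingHom ℚ) := by
  have h0 : de.map (Int.castRingHom ℚ) ≠ 0 :=
    (Polynomial.map_ne_zero_iff Int.cast_injective).mpr de_ne
  rw [RatFunc.denom_dvd h0]
  exact ⟨nu.map (Int.castRingHom ℚ), by rw [mag_reduced]; rfl⟩

lemma not_dvd : ¬ cyclotomic 6 ℚ ∣ (mag house).denom := by
  intro h
  have h1 := h.trans denom_dvd
  have hz := Complex.isPrimitiveRoot_exp 6 (by norm_num)
  set z := Complex.exp (2 * Real.pi * Complex.I / (6 : ℕ)) with hzdef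
  have h2 : aeval z (cyclotomic 6 ℚ) = 0 := by
    have h3 : (cyclotomic 6 ℂ).IsRoot z := hz.isRoot_cyclotomic (by norm_num)
    rw [← map_cyclotomic 6 (algebraMap ℚ ℂ)] at h3
    rw [aeval_def, eval₂_eq_eval_map]
    exact h3
  have h4 : aeval z (de.map (Int.castRingHom ℚ)) = 0 := by
    obtain ⟨g, hg⟩ := h1
    rw [hg, map_mul, h2, zero_mul]
  have h5 : (z + 1) ^ 4 * (z ^ 2 + z + 1) ^ 2 * (z ^ 4 + 1) = 0 := by
    simpa [de] using h4
  have hne : ∀ m : ℕ, 0 < m → m < 6 → z ^ m ≠ 1 := fun m h1 h2 =>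
    hz.pow_ne_one_of_pos_of_lt h1.ne' h2
  have h6 : z ^ 6 = 1 := hz.pow_eq_one
  simp only [mul_eq_zero, pow_eq_zero_iff, ne_eq, OfNat.ofNat_ne_zero, not_false_eq_true] at h5
  rcases h5 with (h5 | h5) | h5
  · exact hne 2 (by norm_num) (by norm_num) (by linear_combination (z - 1) * h5)
  · exact hne 3 (by norm_num) (by norm_num) (by linear_combination (z - 1) * h5)
  · -- `z ^ 8 = 1`, hence `z ^ 2 = 1`
    exact hne 2 (by norm_num) (by norm_num)
      (by linear_combination (z ^ 4 - 1) * h5 - z ^ 2 * h6)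

/-! ### the tope graph -/

lemma degree_eq (C : Chamber house) :
    ∑ D : Chamber house, (if hammingDist C.1 D.1 = 1 then 1 else 0 : ℕ) =
      (L.map (fun c => if pc ((pick C).1 ^^^ c.1) = 1 then 1 else 0 : ℕ × ℕ → ℕ)).sum := by
  rw [← sum_chambers]
  exact Finset.sum_congr rfl fun D _ => by rw [dist_eq]

lemma not_transitive : ¬ VertexTransitive (topeGraph house) := by
  classical
  intro h
  have m1 : ((0, 0) : ℕ × ℕ) ∈ L := by decide +kernel
  have m2 : ((16, 1) : ℕ × ℕ) ∈ L := by decide +kernel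
  obtain ⟨φ, hφ⟩ := h ⟨ofCode 0, isChamber_of_mem m1⟩ ⟨ofCode 16, isChamber_of_mem m2⟩
  have h1 := degree_eq ⟨ofCode 0, isChamber_of_mem m1⟩
  have h2 := degree_eq ⟨ofCode 16, isChamber_of_mem m2⟩
  rw [pick_eq _ m1 rfl] at h1
  rw [pick_eq _ m2 rfl] at h2
  have h3 : (L.map (fun c => if pc (0 ^^^ c.1) = 1 then 1 else 0 : ℕ × ℕ → ℕ)).sum = 4 := by
    decide +kernel
  have h4 : (L.map (fun c => if pc (16 ^^^ c.1) = 1 then 1 else 0 : ℕ × ℕ → ℕ)).sum = 5 := by
    decide +kernel
  rw [h3] at h1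
  rw [h4, ← Equiv.sum_comp φ.toEquiv] at h2
  have h5 : ∀ D : Chamber house,
      (hammingDist (ofCode 16) (φ.toEquiv D).1 = 1 ↔ hammingDist (ofCode 0) D.1 = 1) := by
    intro D
    have := φ.map_adj_iff (v := ⟨ofCode 0, isChamber_of_mem m1⟩) (w := D)
    rw [hφ] at this
    exact this
  simp only [h5] at h2
  rw [h1] at h2
  exact absurd h2 (by norm_num)

/-! ### the arrangement -/

lemma house_isArrangement : IsArrangement house := by
  constructor
  · intro i h
    have : ∀ i, ∃ k, wz i k ≠ 0 := by decide +kernel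
    obtain ⟨k, hk⟩ := this i
    have h1 := congrFun h k
    simp only [house, Pi.zero_apply] at h1
    exact hk (by exact_mod_cast h1)
  · intro i j hij
    have : ∀ i j, i ≠ j → ∃ k l, wz i k * wz j l - wz i l * wz j k ≠ 0 := by decide +kernel
    obtain ⟨k, l, hkl⟩ := this i j hij
    rw [LinearIndependent.pair_iff]
    intro s t h
    have hk := congrFun h k
    have hl := congrFun h l
    simp only [house, Pi.add_apply, Pi.smul_apply, smul_eq_mul, Pi.zero_apply] at hk hl
    have hne : ((wz i k : ℝ) * wz j l - wz i l * wz j k) ≠ 0 := by exact_mod_cast hkl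
    constructor
    · apply (mul_eq_zero.mp (_ : s * ((wz i k : ℝ) * wz j l - wz i l * wz j k) = 0)).resolve_right
        hne
      linear_combination (wz j l : ℝ) * hk - (wz j k : ℝ) * hl
    · apply (mul_eq_zero.mp (_ : t * ((wz i k : ℝ) * wz j l - wz i l * wz j k) = 0)).resolve_right
        hne
      linear_combination (wz i k : ℝ) * hl - (wz i l : ℝ) * hk

lemma house_rank : arrRank house = 4 := by
  have h : Submodule.span ℝ (Set.range house) = ⊤ := by
    rw [Submodule.eq_top_iff']
    intro x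
    have hx : x = x 0 • house 0 + x 1 • house 1 + x 2 • house 2 + x 3 • house 4 := by
      funext k
      fin_cases k <;> simp [house, wz]
    rw [hx]
    have hm : ∀ i, house i ∈ Submodule.span ℝ (Set.range house) := fun i =>
      Submodule.subset_span ⟨i, rfl⟩
    exact Submodule.add_mem _ (Submodule.add_mem _ (Submodule.add_mem _
      (Submodule.smul_mem _ _ (hm 0)) (Submodule.smul_mem _ _ (hm 1)))
      (Submodule.smul_mem _ _ (hm 2))) (Submodule.smul_mem _ _ (hm 4))
  rw [arrRank, h, finrank_top, Module.finrank_fin_fun]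

lemma house_indecomposable : Indecomposable house := by
  intro S hS hS' hdis
  have h0 := house_isArrangement.1
  rw [Submodule.disjoint_def] at hdis
  have hin : ∀ i, i ∈ S → house i ∈ Submodule.span ℝ (house '' S) := fun i hi =>
    Submodule.subset_span ⟨i, hi, rfl⟩
  have hout : ∀ i, i ∉ S → house i ∈ Submodule.span ℝ (house '' Sᶜ) := fun i hi =>
    Submodule.subset_span ⟨i, hi, rfl⟩
  -- a general principle: split a relation into its two parts
  have split : ∀ c : Fin 6 → ℝ, ∑ i, c i • house i = 0 →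
      ∀ [DecidablePred (· ∈ S)], ∑ i, (if i ∈ S then c i else 0) • house i = 0 := by
    intro c hc _
    apply hdis
    · apply Submodule.sum_mem
      intro i _
      split_ifs with hi
      · exact Submodule.smul_mem _ _ (hin i hi)
      · rw [zero_smul]; exact Submodule.zero_mem _
    · have h1 : ∑ i, (if i ∈ S then c i else 0) • house i =
          - ∑ i, (if i ∈ S then 0 else c i) • house i := by
        rw [eq_neg_iff_add_eq_zero, ← Finset.sum_add_distrib, ← hc]
        apply Finset.sum_congr rfl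
        intro i _
        split_ifs <;> simp
      rw [h1]
      apply Submodule.neg_mem
      apply Submodule.sum_mem
      intro i _
      split_ifs with hi
      · rw [zero_smul]; exact Submodule.zero_mem _
      · exact Submodule.smul_mem _ _ (hout i hi)
  classical
  -- the square relation
  have r1 := split ![1, 1, 1, -1, 0, 0] (by
    funext k
    fin_cases k <;> simp [Fin.sum_univ_succ, house, wz])
  -- the triangle relation
  have r2 := split ![0, 0, 0, 1, 1, -1] (by
    funext k
    fin_cases k <;> simp [Fin.sum_univ_succ, house, wz])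
  have hsum : ∀ (c : Fin 6 → ℝ) (k : Fin 4),
      (∑ i, (if i ∈ S then c i else 0) • house i) k =
      (if (0 : Fin 6) ∈ S then c 0 else 0) * (wz 0 k : ℝ) +
      (if (1 : Fin 6) ∈ S then c 1 else 0) * (wz 1 k : ℝ) +
      (if (2 : Fin 6) ∈ S then c 2 else 0) * (wz 2 k : ℝ) +
      (if (3 : Fin 6) ∈ S then c 3 else 0) * (wz 3 k : ℝ) +
      (if (4 : Fin 6) ∈ S then c 4 else 0) * (wz 4 k : ℝ) +
      (if (5 : Fin 6) ∈ S then c 5 else 0) * (wz 5 k : ℝ) := by
    intro c k
    rw [Finset.sum_apply, Fin.sum_univ_six]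
    rfl
  have a0 := congrFun r1 0
  have a1 := congrFun r1 1
  have a2 := congrFun r1 2
  have b0 := congrFun r2 0
  have b3 := congrFun r2 3
  rw [hsum] at a0 a1 a2 b0 b3
  simp [wz] at a0 a1 a2 b0 b3
  have m0 : (0 : Fin 6) ∈ S ↔ (3 : Fin 6) ∈ S := by
    by_cases s0 : (0 : Fin 6) ∈ S <;> by_cases s3 : (3 : Fin 6) ∈ S <;> simp [s0, s3] at a0 ⊢
  have m1 : (1 : Fin 6) ∈ S ↔ (3 : Fin 6) ∈ S := by
    by_cases s0 : (1 : Fin 6) ∈ S <;> by_cases s3 : (3 : Fin 6) ∈ S <;> simp [s0, s3] at a1 ⊢
  have m2 : (2 : Fin 6) ∈ S ↔ (3 : Fin 6) ∈ S := by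
    by_cases s0 : (2 : Fin 6) ∈ S <;> by_cases s3 : (3 : Fin 6) ∈ S <;> simp [s0, s3] at a2 ⊢
  have m5 : (5 : Fin 6) ∈ S ↔ (3 : Fin 6) ∈ S := by
    by_cases s0 : (5 : Fin 6) ∈ S <;> by_cases s3 : (3 : Fin 6) ∈ S <;> simp [s0, s3] at b0 ⊢
  have m4 : (4 : Fin 6) ∈ S ↔ (5 : Fin 6) ∈ S := by
    by_cases s0 : (4 : Fin 6) ∈ S <;> by_cases s3 : (5 : Fin 6) ∈ S <;> simp [s0, s3] at b3 ⊢
  have hall : ∀ i, i ∈ S ↔ (3 : Fin 6) ∈ S := by
    intro i
    fin_cases i
    · exact m0
    · exact m1
    · exact m2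
    · exact Iff.rfl
    · exact m4.trans m5
    · exact m5
  obtain ⟨i, hi⟩ := hS
  obtain ⟨j, hj⟩ := hS'
  exact hj ((hall j).mpr ((hall i).mp hi))

/-- There is an indecomposable arrangement of `6` hyperplanes in `ℝ⁴`, of rank `4`, whose tope
graph is not vertex-transitive although the cyclotomic polynomial `Φ_6` does not divide the
reduced denominator of its magnitude. (Its Varchenko matrix is invertible.) -/
theorem result : ∃ α : Fin 6 → Fin 4 → ℝ,
    IsArrangement α ∧ arrRank α = 4 ∧ Indecomposable α ∧ IsUnit (varchenko α).det ∧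
    ¬ VertexTransitive (topeGraph α) ∧ ¬ cyclotomic 6 ℚ ∣ (mag α).denom :=
  ⟨house, house_isArrangement, house_rank, house_indecomposable, (varchenko_det house).isUnit,
    not_transitive, not_dvd⟩

end Pool.Agent.Results.MP_04f01b_co.HouseMagnitude
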